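import Pool.Agent.H474R4.BG.Class
import Pool.Agent.H474R4.BG.Final

/-!
A positive proportion of all intervals `(x, x + (log x)^A]` contain `m` primes which lie in an
interval of bounded length.
-/

set_option autoImplicit false

open Finset Filter

namespace Pool.Agent.Results.MP_3efbeb_nt.BoundedGapsPolylog

open Classical in
theorem result : ∀ m : ℕ, ∃ (A B : ℕ) (c : ℝ), 0 < c ∧ ∃ N₀ : ℕ, ∀ N : ℕ, N₀ ≤ N →
    c * N ≤ (((range N).filter (fun x : ℕ => ∃ p : ℕ,
      x < p ∧ (p + B : ℝ) ≤ x + Real.log x ^ A ∧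
        m ≤ ((Icc p (p + B)).filter Nat.Prime).card)).card : ℝ) :=
  Pool.Agent.H474R4.BG.finalBG_of Pool.Agent.H474R4.BG.classBG

end Pool.Agent.Results.MP_3efbeb_nt.BoundedGapsPolylog
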