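import Mathlib
import Pool.Agent.H447R3.PF.Base

/-! Prescribed numbers of prime factors of `n + h_1, ..., n + h_k`. -/

theorem Pool.Agent.Results.MP_3efbeb_nt.PrimeFactorCounts.result :
    ∀ k : ℕ, ∃ r0 R : ℕ, ∀ h : Fin k → ℕ, Function.Injective h →
      ∀ q a : ℕ, 0 < q → ∀ r : Fin k → ℕ, (∀ i, r0 + q.primeFactors.card ≤ r i) →
      ∃ C : ℕ, {n : ℕ | n ≡ a [MOD q] ∧
        ∀ i, (n + h i).primeFactors.card = r i ∧ ∃ c s : ℕ, n + h i = c * s ∧ c ≤ C ∧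
          Squarefree s ∧ ∀ p : ℕ, p.Prime → p ∣ s → n ≤ p ^ R}.Infinite :=
  Pool.Agent.H447R3.PF.shifts_infinite
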