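import Pool.Agent.H661R3.OP.Final

open Finset

namespace Pool.Agent.Results.MP_3efbeb_nt.RoughTripleParity

/-- **Parity of the number of prime factors at almost prime triples and quadruples.**
Let `S` be a subset of odd size of the shifts `{0, 2, 6, 8}` (for example `{0, 2, 6}`) and `ε > 0`. There
are `R` and `δ > 0` such that for all large `x` there are at least `x ^ (1 - ε)` positive integers `n ≤ x`
such that each of `n`, `n + 2`, `n + 6`, `n + 8` is a product of at most `R` primes, all of them larger than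
`x ^ δ`, and the product of the `n + h` with `h ∈ S` has an odd number of prime factors; there are also at
least `x ^ (1 - ε)` such `n` for which this number is even. -/
theorem result (S : Finset ℕ) (hS : S ⊆ {0, 2, 6, 8}) (hodd : Odd S.card) (ε : ℝ) (hε : 0 < ε) :
    ∃ (R : ℕ) (δ : ℝ), 0 < δ ∧ ∃ x₀ : ℝ, ∀ x : ℝ, x₀ ≤ x →
    x ^ (1 - ε) ≤ ({n : ℕ | 0 < n ∧ (n : ℝ) ≤ x ∧
      (∀ h ∈ ({0, 2, 6, 8} : Finset ℕ), ArithmeticFunction.cardFactors (n + h) ≤ R ∧
        ∀ p : ℕ, p.Prime → p ∣ n + h → x ^ δ < p) ∧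
      Odd (∑ h ∈ S, ArithmeticFunction.cardFactors (n + h))}.ncard : ℝ) ∧
    x ^ (1 - ε) ≤ ({n : ℕ | 0 < n ∧ (n : ℝ) ≤ x ∧
      (∀ h ∈ ({0, 2, 6, 8} : Finset ℕ), ArithmeticFunction.cardFactors (n + h) ≤ R ∧
        ∀ p : ℕ, p.Prime → p ∣ n + h → x ^ δ < p) ∧
      Even (∑ h ∈ S, ArithmeticFunction.cardFactors (n + h))}.ncard : ℝ) := by
  refine Pool.Agent.H661R3.OP.shiftsNat Pool.Agent.H661R3.OP.liou {0, 2, 6, 8}
    (Pool.Agent.H661R3.OP.adm_of_small _ 5 (by decide) ?_) S hS hodd ε hε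
  intro p hp hp5
  have h2 := hp.two_le
  interval_cases p
  · exact ⟨1, by decide⟩
  · exact ⟨2, by decide⟩
  · exact absurd hp (by decide)

end Pool.Agent.Results.MP_3efbeb_nt.RoughTripleParity
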